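import Pool.Graph.R_pool_sql_team_seeded_63374d34.N154.GG.Geo2
import Pool.Graph.R_pool_sql_team_seeded_63374d34.N155.B.Defs
import Pool.Graph.R_pool_sql_team_seeded_3997aac3.Q103.SF.Disc
import Pool.Graph.R_pool_sql_team_seeded_3997aac3.Q285.SFG.Gpc
import Pool.Graph.R_seed8.Y719.LC.GO
import Pool.Graph.R_seed8.Y719.LC.Par2
import Pool.Graph.R_seed8.TH143.EL.Main3
import Pool.Graph.R_seed8.TH143.EL.Exa

/-!
# PAR: entire curves in proper closed subsets of surfaces
-/

set_option autoImplicit false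

open Filter Topology FF LinearAlgebra.Projectivization Pool.Agent.W602.GT

namespace Pool.Agent.H106.SS

open Pool.Agent.TH143.EL (NC codis_rep codis_ev codis_of_ev mero_poly nc_poly Rep InV inV_iff
  inV_of_punct eval_comp_poly mero_id2 mero_ne mero_an freq_of_ev rep_iff rep_rep rep_smul HolMap
  rep_eq holMap_ext mero_id)
open scoped LinearAlgebra.Projectivization

variable {N : ℕ}

/-- meromorphic homogeneous coordinates -/
theorem exists_coords {f : ℂ → ℙ ℂ (Fin (N + 1) → ℂ)} (hf : HolMap f) :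
    ∃ (j0 : Fin (N + 1)) (h : Fin (N + 1) → ℂ → ℂ), (∀ j, Meromorphic (h j)) ∧
      (∀ᶠ z in codiscrete ℂ, h j0 z = 1) ∧ ∀ᶠ z in codiscrete ℂ, Rep (f z) fun j => h j z := by
  obtain ⟨j0, hj0⟩ := Function.ne_iff.1 (f 0).rep_nonzero
  have hj0' : (f 0).rep j0 ≠ 0 := hj0
  let h : Fin (N + 1) → ℂ → ℂ := fun j z => (f z).rep j / (f z).rep j0
  have hloc : ∀ a, ∃ g : Fin (N + 1) → ℂ → ℂ, (∀ j, AnalyticAt ℂ (g j) a) ∧
      ∀ j, h j =ᶠ[𝓝 a] fun z => g j z / g j0 z := by
    intro a
    obtain ⟨g, hg, hgr⟩ := hf a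
    refine ⟨g, hg, fun j => ?_⟩
    filter_upwards [hgr] with z hz
    obtain ⟨h3, h4⟩ := (rep_iff hz).1 (rep_rep (f z))
    change (f z).rep j / (f z).rep j0 = g j z / g j0 z
    have h5 := h4 j j0
    by_cases h6 : g j0 z = 0
    · have h7 : (f z).rep j0 = 0 := by
        obtain ⟨k, hk⟩ := Function.ne_iff.1 hz.1
        have hk' : g k z ≠ 0 := hk
        have h8 := h4 k j0
        rw [h6, zero_mul] at h8
        exact (mul_eq_zero.1 h8).resolve_left hk'
      rw [h6, h7, div_zero, div_zero]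
    · have h7 : (f z).rep j0 ≠ 0 := by
        intro h7
        rw [h7, mul_zero] at h5
        obtain ⟨k, hk⟩ := Function.ne_iff.1 h3
        have hk' : (f z).rep k ≠ 0 := hk
        have h8 := h4 k j0
        rw [h7, mul_zero] at h8
        exact (mul_ne_zero h6 hk') h8.symm
      rw [div_eq_div_iff h7 h6]
      linear_combination -h5
  have hm : ∀ j, Meromorphic (h j) := by
    intro j a
    obtain ⟨g, hg, hge⟩ := hloc a
    exact ((hg j).meromorphicAt.div (hg j0).meromorphicAt).congr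
      ((hge j).symm.filter_mono nhdsWithin_le_nhds)
  have h3 : ∀ᶠ z in codiscrete ℂ, h j0 z = 1 := by
    apply mero_id2 (hm j0) (Meromorphic.const 1) (x := 0)
    apply freq_of_ev
    obtain ⟨g, hg, hgr⟩ := hf 0
    have h4 : g j0 0 ≠ 0 := by
      intro h6
      obtain ⟨h7, h8⟩ := (rep_iff hgr.self_of_nhds).1 (rep_rep (f 0))
      obtain ⟨k, hk⟩ := Function.ne_iff.1 hgr.self_of_nhds.1
      have hk' : g k 0 ≠ 0 := hk
      have h9 := h8 k j0
      rw [h6, zero_mul] at h9
      exact hj0' ((mul_eq_zero.1 h9).resolve_left hk')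
    filter_upwards [hgr, (hg j0).continuousAt.eventually_ne h4] with z hz hz'
    change (f z).rep j0 / (f z).rep j0 = 1
    apply div_self
    intro h7
    obtain ⟨h3, h4⟩ := (rep_iff hz).1 (rep_rep (f z))
    obtain ⟨k, hk⟩ := Function.ne_iff.1 h3
    have hk' : (f z).rep k ≠ 0 := hk
    have h8 := h4 k j0
    rw [h7, mul_zero] at h8
    exact (mul_ne_zero hz' hk') h8.symm
  refine ⟨j0, h, hm, h3, ?_⟩
  filter_upwards [h3] with z hz
  have h4 : (f z).rep j0 ≠ 0 := by
    intro h5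
    change (f z).rep j0 / (f z).rep j0 = 1 at hz
    rw [h5, div_zero] at hz
    exact zero_ne_one hz
  have h5 : (fun j => h j z) = fun j => ((f z).rep j0)⁻¹ * (f z).rep j := by
    funext j
    simp only [h]
    rw [div_eq_mul_inv, mul_comm]
  rw [h5]
  exact (rep_smul (inv_ne_zero h4)).2 (rep_rep (f z))

/-- `sin` maps punctured neighbourhoods to punctured neighbourhoods -/
theorem sin_punct (t : ℂ) : Tendsto Complex.sin (𝓝[≠] t) (𝓝[≠] (Complex.sin t)) := by
  apply tendsto_nhdsWithin_of_tendsto_nhds_of_eventually_within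
  · exact Complex.continuous_sin.continuousAt.tendsto.mono_left nhdsWithin_le_nhds
  · have han : AnalyticAt ℂ (fun z => Complex.sin z - Complex.sin t) t :=
      (Complex.differentiable_sin.analyticAt t).sub analyticAt_const
    rcases han.eventually_eq_zero_or_eventually_ne_zero with h1 | h1
    · exfalso
      have h2 : AnalyticOnNhd ℂ (fun z => Complex.sin z - Complex.sin t) Set.univ := fun z _ =>
        (Complex.differentiable_sin.analyticAt z).sub analyticAt_const
      have h3 := h2.eq_of_eventuallyEq (g := fun _ => 0) analyticOnNhd_const h1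
      have h4 := congrFun h3 0
      have h5 := congrFun h3 (Real.pi / 2)
      simp only [Complex.sin_zero] at h4
      rw [Complex.sin_pi_div_two] at h5
      have h6 : (1 : ℂ) = 0 := by linear_combination h5 - h4
      exact one_ne_zero h6
    · filter_upwards [h1] with z hz h2
      exact hz (sub_eq_zero.2 h2)

/-- points near infinity with the given value of `sin` -/
theorem sin_large (u : ℂ) : ∃ t : ℕ → ℂ, (∀ n, Complex.sin (t n) = u) ∧
    Tendsto t atTop (Bornology.cobounded ℂ) := by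
  obtain ⟨ζ, hζ⟩ := Complex.sin_surjective u
  refine ⟨fun n => ζ + n * (2 * (Real.pi : ℂ)), fun n => by
    rw [Complex.sin_add_nat_mul_two_pi, hζ], ?_⟩
  rw [← tendsto_norm_atTop_iff_cobounded]
  have h1 : Tendsto (fun n : ℕ => (n : ℝ) - ‖ζ‖) atTop atTop :=
    tendsto_atTop_add_const_right _ _ tendsto_natCast_atTop_atTop
  refine tendsto_atTop_mono (fun n => ?_) h1
  have h2 : ‖(n : ℂ) * (2 * (Real.pi : ℂ))‖ = n * (2 * Real.pi) := by
    rw [norm_mul, norm_mul, Complex.norm_natCast, Complex.norm_real,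
      Real.norm_of_nonneg Real.pi_pos.le]
    simp
  have h3 := norm_sub_norm_le ((n : ℂ) * (2 * (Real.pi : ℂ))) (-ζ)
  rw [norm_neg, sub_neg_eq_add, add_comm ((n : ℂ) * (2 * (Real.pi : ℂ))) ζ, h2] at h3
  have h4 : (n : ℝ) ≤ n * (2 * Real.pi) := by
    apply le_mul_of_one_le_right (Nat.cast_nonneg n)
    have := Real.pi_gt_three
    linarith
  linarith

/-! ### forms -/

theorem val_eval' (v : Fin (N + 1) → ℂ) (G : MvPolynomial (Fin (N + 1)) ℂ) :
    val v G = MvPolynomial.eval v G := by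
  unfold val
  rw [MvPolynomial.aeval_eq_eval]

theorem holMap_conv {f : ℂ → ℙ ℂ (Fin (N + 1) → ℂ)} (hf : HolMap f) :
    Pool.Agent.N154.GG.HolMap f := by
  intro z
  obtain ⟨g, hg, hgr⟩ := hf z
  have h1 : ∀ᶠ w in 𝓝 z, (∀ j, AnalyticAt ℂ (g j) w) ∧ Rep (f w) (fun j => g j w) :=
    (eventually_all.2 fun j => (hg j).eventually_analyticAt).and hgr
  obtain ⟨V, hVs, hV, hz⟩ := _root_.mem_nhds_iff.1 h1
  refine ⟨V, fun w j => g j w, hV, hz, ?_, fun w hw => (hVs hw).2⟩
  exact differentiableOn_pi.2 fun j w hw =>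
    ((hVs hw).1 j).differentiableAt.differentiableWithinAt

theorem holMap_conv' {f : ℂ → ℙ ℂ (Fin (N + 1) → ℂ)} (hf : Pool.Agent.N154.GG.HolMap f) :
    HolMap f := by
  intro z
  obtain ⟨V, g, hV, hz, hg, hgr⟩ := hf z
  refine ⟨fun j w => g w j, fun j => ?_, ?_⟩
  · exact ((differentiableOn_pi.1 hg) j).analyticAt (hV.mem_nhds hz)
  · filter_upwards [hV.mem_nhds hz] with w hw
    exact hgr w hw

theorem inV_span {G : MvPolynomial (Fin (N + 1)) ℂ} (hG : IsForm G)
    (p : ℙ ℂ (Fin (N + 1) → ℂ)) :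
    InV (Ideal.span {G}) p ↔ MvPolynomial.eval p.rep G = 0 := by
  constructor
  · intro h
    exact h G (Ideal.subset_span rfl) hG
  · intro h H hH _
    obtain ⟨a, rfl⟩ := Ideal.mem_span_singleton'.1 hH
    rw [map_mul, h, mul_zero]

theorem rep_eval {G : MvPolynomial (Fin (N + 1)) ℂ} (hG : IsForm G)
    {p : ℙ ℂ (Fin (N + 1) → ℂ)} {v : Fin (N + 1) → ℂ} (h : Rep p v) :
    MvPolynomial.eval p.rep G = 0 ↔ MvPolynomial.eval v G = 0 := by
  rw [← inV_span hG, inV_iff h]
  constructor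
  · intro h1
    exact h1 G (Ideal.subset_span rfl) hG
  · intro h1 H hH _
    obtain ⟨a, rfl⟩ := Ideal.mem_span_singleton'.1 hH
    rw [map_mul, h1, mul_zero]

/-- forms which vanish along a curve -/
theorem eval_iff {f : ℂ → ℙ ℂ (Fin (N + 1) → ℂ)} (hf : HolMap f) {h : Fin (N + 1) → ℂ → ℂ}
    (hr : ∀ᶠ z in codiscrete ℂ, Rep (f z) fun j => h j z) {G : MvPolynomial (Fin (N + 1)) ℂ}
    (hG : IsForm G) : (∀ᶠ z in codiscrete ℂ, MvPolynomial.eval (fun j => h j z) G = 0) ↔
      ∀ z, MvPolynomial.eval (f z).rep G = 0 := by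
  constructor
  · intro h1 z
    rw [← inV_span hG]
    apply inV_of_punct hf
    filter_upwards [codis_ev h1 z, codis_ev hr z] with w h2 h3
    rw [inV_span hG]
    exact (rep_eval hG h3).2 h2
  · intro h1
    filter_upwards [hr] with z h2
    exact (rep_eval hG h2).1 (h1 z)

/-- two points where the coordinates are regular and one of them has different values -/
theorem exists_two {f : ℂ → ℙ ℂ (Fin (N + 1) → ℂ)} (hf : HolMap f) {h : Fin (N + 1) → ℂ → ℂ}
    (hm : ∀ j, Meromorphic (h j)) (hr : ∀ᶠ z in codiscrete ℂ, Rep (f z) fun j => h j z)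
    (hnc : ∃ z w, f z ≠ f w) : ∃ j u1 u2, AnalyticAt ℂ (h j) u1 ∧ AnalyticAt ℂ (h j) u2 ∧
      h j u1 ≠ h j u2 := by
  by_contra hcon
  push Not at hcon
  have h1 : ∀ᶠ z in codiscrete ℂ, (∀ j, AnalyticAt ℂ (h j) z) ∧ Rep (f z) fun j => h j z :=
    (eventually_all.2 fun j => mero_an (hm j)).and hr
  obtain ⟨u, hu1, hu2⟩ := h1.exists
  have h2 : ∀ᶠ z in codiscrete ℂ, f z = f u := by
    filter_upwards [h1] with z hz
    have h3 : (fun j => h j z) = fun j => h j u := by
      funext j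
      exact hcon j z u (hz.1 j) (hu1 j)
    have h4 := hz.2
    rw [h3] at h4
    exact rep_eq h4 hu2
  have h3 : ∀ a, f a = f u := by
    intro a
    refine holMap_ext (f' := fun _ => f u) hf (fun b => ?_) (codis_ev h2 a)
    exact ⟨fun j _ => h j u, fun j => analyticAt_const, Eventually.of_forall fun _ => hu2⟩
  obtain ⟨z, w, hzw⟩ := hnc
  exact hzw ((h3 z).trans (h3 w).symm)

open Pool.Agent.Y221.AP (MK cl cl_eq cl_eq_zero Om cod cod_ev cod_of_ev Fn Fn_cl MInf)

/-- the curve, near infinity after the substitution of the sine -/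
theorem exists_mk {f : ℂ → ℙ ℂ (Fin (N + 1) → ℂ)} (hf : HolMap f) (hnc : ∃ z w, f z ≠ f w) :
    ∃ z : Fin (N + 1) → MK, (∀ G : MvPolynomial (Fin (N + 1)) ℂ, IsForm G →
      (val z G = 0 ↔ ∀ t, MvPolynomial.eval (f t).rep G = 0)) ∧
      ∃ j k, z k ≠ 0 ∧ ¬ MInf (z j / z k) := by
  obtain ⟨j0, h, hm, h1, hr⟩ := exists_coords hf
  obtain ⟨j, u1, u2, ha1, ha2, hne⟩ := exists_two hf hm hr hnc
  have hm' : ∀ j, MeromorphicOn (fun t => h j (Complex.sin t)) Om := fun j t _ =>
    (hm j _).comp_analyticAt (Complex.differentiable_sin.analyticAt t)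
  let z : Fin (N + 1) → MK := fun j => cl (fun t => h j (Complex.sin t)) (hm' j)
  have hz0 : z j0 = 1 := by
    have h2 : (1 : MK) = cl (fun _ => (1 : ℂ)) (Pool.Agent.Y221.AP.mconst 1) := by
      rw [Pool.Agent.Y221.AP.cl_const, map_one]
    rw [h2]
    refine cl_eq.2 (cod_of_ev fun t _ => ?_)
    exact (sin_punct t).eventually (codis_ev h1 (Complex.sin t))
  refine ⟨z, fun G hG => ?_, j, j0, by rw [hz0]; exact one_ne_zero, ?_⟩
  · rw [← eval_iff hf hr hG]
    have h2 : val z G = cl (fun t => MvPolynomial.eval (fun i => h i (Complex.sin t)) G)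
        (Pool.Agent.Y221.AP.mero_eval hm' G) := Pool.Agent.Y221.PD.val_cl hm' G
    rw [h2, cl_eq_zero]
    constructor
    · intro h3
      by_contra hcon
      have h4 := mero_ne (Pool.Agent.TH143.EL.mero_eval hm G) hcon
      have h5 : ∀ᶠ t in cod, MvPolynomial.eval (fun i => h i (Complex.sin t)) G ≠ 0 :=
        cod_of_ev fun t _ => (sin_punct t).eventually (codis_ev h4 (Complex.sin t))
      obtain ⟨t, h6, h7⟩ := (h3.and h5).exists
      exact h7 h6
    · intro h3
      exact cod_of_ev fun t _ => (sin_punct t).eventually (codis_ev h3 (Complex.sin t))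
  · rw [hz0, div_one]
    intro hmi
    have key : ∀ u, AnalyticAt ℂ (h j) u → ∃ w : ℕ → ℂ, Tendsto w atTop (𝓝[≠] 0) ∧
        ∀ᶠ n in atTop, Fn (z j) (w n)⁻¹ = h j u := by
      intro u hu
      obtain ⟨t, ht, htt⟩ := sin_large u
      refine ⟨fun n => (t n)⁻¹, tendsto_inv₀_cobounded'.comp htt, ?_⟩
      have h2 : ∀ᶠ n in atTop, 1 < ‖t n‖ :=
        (tendsto_norm_cobounded_atTop.comp htt).eventually_gt_atTop 1
      filter_upwards [h2] with n hn
      have h3 : AnalyticAt ℂ (fun s => h j (Complex.sin s)) (t n) := by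
        refine AnalyticAt.comp ?_ (Complex.differentiable_sin.analyticAt (t n))
        rw [ht n]
        exact hu
      have h4 := (Fn_cl (hm' j) (show t n ∈ Om from hn) h3).self_of_nhds
      rw [inv_inv]
      exact h4.trans (congrArg (h j) (ht n))
    obtain ⟨w1, hw1, he1⟩ := key u1 ha1
    obtain ⟨w2, hw2, he2⟩ := key u2 ha2
    have hlim : ∀ (w : ℕ → ℂ) (c : ℂ), (∀ᶠ n in atTop, Fn (z j) (w n)⁻¹ = c) →
        Tendsto (fun n => Fn (z j) (w n)⁻¹) atTop (𝓝 c) := fun w c hc =>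
      tendsto_const_nhds.congr' (hc.mono fun n hn => hn.symm)
    by_cases ho : meromorphicOrderAt (fun w => Fn (z j) w⁻¹) 0 < 0
    · have h2 := tendsto_cobounded_of_meromorphicOrderAt_neg ho
      have h3 : Tendsto (fun n => Fn (z j) (w1 n)⁻¹) atTop (Bornology.cobounded ℂ) := h2.comp hw1
      have h4 := hlim w1 _ he1
      have h5 : Tendsto (fun n => ‖Fn (z j) (w1 n)⁻¹‖) atTop atTop :=
        tendsto_norm_cobounded_atTop.comp h3
      exact not_tendsto_nhds_of_tendsto_atTop h5 _ h4.norm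
    · obtain ⟨c, hc⟩ := tendsto_nhds_of_meromorphicOrderAt_nonneg hmi (not_lt.1 ho)
      have h3 : Tendsto (fun n => Fn (z j) (w1 n)⁻¹) atTop (𝓝 c) := hc.comp hw1
      have h4 : Tendsto (fun n => Fn (z j) (w2 n)⁻¹) atTop (𝓝 c) := hc.comp hw2
      have h5 := tendsto_nhds_unique h3 (hlim w1 _ he1)
      have h6 := tendsto_nhds_unique h4 (hlim w2 _ he2)
      exact hne (h5.symm.trans h6)

end Pool.Agent.H106.SS
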