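import Pool.Agent.H106.SS.ParA

/-!
# PAR: entire curves in proper closed subsets of surfaces, second part
-/

set_option autoImplicit false

open Filter Topology FF LinearAlgebra.Projectivization Pool.Agent.W602.GT Pool.Agent.N154.GG

namespace Pool.Agent.H106.SS

open Pool.Agent.TH143.EL (NC codis_rep codis_ev mero_poly nc_poly Rep InV inV_iff inV_of_punct
  eval_comp_poly TrOne trOne_poly linB_of_mem TorusMapsIn per_int)
open Pool.Agent.W603.LV (canDeg)
open Pool.Agent.Q103.SF (van lowCurves point_low)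
open scoped LinearAlgebra.Projectivization

/-- the curve has genus at most one -/
theorem low {n : ℕ} {ι : Type} {F : ι → MvPolynomial (Fin (n + 1)) ℂ} {K : Type} [Field K]
    [Algebra ℂ K] {y : Fin (n + 1) → K} (hX : SmoothVariety F 2 y)
    {H : MvPolynomial (Fin (n + 1)) ℂ} (hH : IsForm H) (hyH : val y H ≠ 0)
    {f : ℂ → ℙ ℂ (Fin (n + 1) → ℂ)} (hf : HolIn F f) (hnc : ∃ z w, f z ≠ f w)
    (hfH : ∀ z, val (f z).rep H = 0) :
    ∃ (L : Type) (_ : Field L) (_ : Algebra ℂ L) (_ : IsFF ℂ L) (v : Fin (n + 1) → L),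
      SubVar F L 1 v ∧ canDeg ℂ L ≤ 0 ∧
      ∀ G : MvPolynomial (Fin (n + 1)) ℂ, IsForm G →
        ((∀ z, val (f z).rep G = 0) ↔ val v G = 0) := by
  have hfh := holMap_conv' hf.1
  obtain ⟨z, hz, j, k, hk, hjk⟩ := exists_mk hfh hnc
  have hspec : ∀ G : MvPolynomial (Fin (n + 1)) ℂ, IsForm G → val y G = 0 → val z G = 0 := by
    intro G hG hyG
    rw [hz G hG]
    intro t
    rw [← val_eval']
    exact (hX.irred (hf.2 t)).2 G hG hyG
  have hzH : val z H = 0 := by
    rw [hz H hH]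
    intro t
    rw [← val_eval']
    exact hfH t
  obtain ⟨L, _, _, hff, v, hov, hgen, hcan, hvan⟩ := point_low Pool.Agent.Q285.SFG.t_gpc hX.sub.dim
    hX.sub.ne hX.sub.gen hspec hH hyH hzH hk hjk
  refine ⟨L, inferInstance, inferInstance, hff, v, ⟨?_, ?_, hgen, ?_⟩, hcan, ?_⟩
  · obtain ⟨i, hi⟩ := hov.1
    intro h0
    exact hi (congrFun h0 i)
  · intro i
    exact hov.2 (F i) (hX.form i) (hX.sub.mem i)
  · rw [hff.trdeg]
    simp
  · intro G hG
    have h1 : G ∈ van z ↔ G ∈ van v := by rw [hvan]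
    constructor
    · intro h2
      refine (h1.1 ⟨hG, ?_⟩).2
      rw [hz G hG]
      intro t
      rw [← val_eval']
      exact h2 t
    · intro h2 t
      have h3 := (h1.2 ⟨hG, h2⟩).2
      rw [hz G hG] at h3
      rw [val_eval']
      exact h3 t

/-- curves of genus at most one are not of general type -/
theorem not_gt {L : Type} [Field L] [Algebra ℂ L] [IsFF ℂ L] (h : canDeg ℂ L ≤ 0) :
    ¬ GeneralType ℂ L 1 := by
  rintro ⟨h1, N, hN, ω, h2, h3, h4⟩
  have h5 : LogGeneralType ℂ L 1 (fun _ => False) := by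
    refine ⟨h1, N, hN, ω, h2, fun P hP j D hD => h3 P hP j D fun i f hf => ?_,
      fun P hP _ j => h3 P hP j, h4⟩
    by_cases hf0 : f = 0
    · rw [hf0, map_zero]
      exact P.reg_zero
    · have h6 : D i f = f * (D i f / f) := by field_simp
      rw [h6]
      exact P.reg_mul hf (hD i f)
  have h6 := Pool.Agent.Q96.HE.pos_of_lgt (by simp) h5
  simp only [Set.ofPred_false, Set.ncard_empty, Nat.cast_zero, add_zero] at h6
  omega

section

variable {n : ℕ} {ι : Type} {F : ι → MvPolynomial (Fin (n + 1)) ℂ} {K : Type} [Field K]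
  [Algebra ℂ K] {y : Fin (n + 1) → K}

/-- a point with constant ratios of coordinates -/
theorem not_const (hy : SubVar F K 1 y) (v : Fin (n + 1) → ℂ) (k : Fin (n + 1)) (hk : v k ≠ 0)
    (h : ∀ j, algebraMap ℂ K (v k) * y j = algebraMap ℂ K (v j) * y k) : False := by
  have hk' : algebraMap ℂ K (v k) ≠ 0 := by
    rw [Ne, map_eq_zero]
    exact hk
  have h1 : coords ℂ y ≤ ⊥ := by
    unfold coords
    rw [IntermediateField.adjoin_le_iff]
    rintro _ ⟨i, j, hj, rfl⟩
    have h2 : ∀ j, y j = algebraMap ℂ K (v j) / algebraMap ℂ K (v k) * y k := by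
      intro j
      rw [div_mul_eq_mul_div, eq_div_iff hk', mul_comm (y j)]
      exact h j
    have hyk : y k ≠ 0 := by
      intro h0
      apply hj
      rw [h2 j, h0, mul_zero]
    have hvj : algebraMap ℂ K (v j) ≠ 0 := by
      intro h0
      apply hj
      rw [h2 j, h0, zero_div, zero_mul]
    refine IntermediateField.mem_bot.2 ⟨v i / v j, ?_⟩
    rw [map_div₀, h2 i, h2 j]
    field_simp
  rw [hy.gen] at h1
  have h3 : Algebra.IsAlgebraic ℂ K := by
    refine ⟨fun x => ?_⟩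
    obtain ⟨c, rfl⟩ := IntermediateField.mem_bot.1 (h1 (IntermediateField.mem_top (x := x)))
    exact isAlgebraic_algebraMap c
  have h4 := hy.dim
  rw [_root_.trdeg_eq_zero_iff.2 h3] at h4
  simp at h4

/-- the ideal of the curve -/
noncomputable def vI (y : Fin (n + 1) → K) : Ideal (MvPolynomial (Fin (n + 1)) ℂ) :=
  Ideal.span {G | IsForm G ∧ val y G = 0}

theorem inV_vI {p : ℙ ℂ (Fin (n + 1) → ℂ)} :
    InV (vI y) p ↔ ∀ G, IsForm G → val y G = 0 → MvPolynomial.eval p.rep G = 0 := by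
  constructor
  · intro h G hG hyG
    exact h G (Ideal.subset_span ⟨hG, hyG⟩) hG
  · intro h G hG _
    have h1 : vI y ≤ RingHom.ker (MvPolynomial.eval p.rep) := by
      unfold vI
      rw [Ideal.span_le]
      rintro G ⟨hG, hyG⟩
      exact h G hG hyG
    exact h1 hG

/-- a curve which is parametrised by the functions of a differential ring contains the image of a
torus -/
theorem torus (hF : ∀ i, IsForm (F i)) (hy : SubVar F K 1 y) {B : Subalgebra ℂ (ℂ → ℂ)}
    (hB : TrOne B) {h : Fin (n + 1) → ℂ → ℂ} (hhB : ∀ j, h j ∈ B)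
    (hv : ∀ G : MvPolynomial (Fin (n + 1)) ℂ, IsForm G →
      (val y G = 0 ↔ ∀ᶠ z in codiscrete ℂ, MvPolynomial.eval (fun j => h j z) G = 0)) :
    ∃ g : ℂ → ℙ ℂ (Fin (n + 1) → ℂ), HolIn F g ∧ (∃ z w, g z ≠ g w) ∧
      Pool.Agent.N155.BB.DoublyPeriodic g ∧
      ∀ G : MvPolynomial (Fin (n + 1)) ℂ, IsForm G → val y G = 0 → ∀ z, val (g z).rep G = 0 := by
  have hh : ∀ j, Meromorphic (h j) := fun j => hB.mero _ (hhB j)
  have hne : ∃ j, ¬ ∀ᶠ z in codiscrete ℂ, h j z = 0 := by
    obtain ⟨j, hj⟩ := Function.ne_iff.1 hy.ne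
    refine ⟨j, fun h0 => hj ?_⟩
    have h1 := (hv (MvPolynomial.X j) ⟨1, MvPolynomial.isHomogeneous_X ℂ j⟩).2 (by
      filter_upwards [h0] with z hz
      rw [MvPolynomial.eval_X]
      exact hz)
    unfold val at h1
    rwa [MvPolynomial.aeval_X] at h1
  obtain ⟨f, hf, hfr⟩ := codis_rep hh hne
  have hval : ∀ G : MvPolynomial (Fin (n + 1)) ℂ, IsForm G →
      (val y G = 0 ↔ ∀ z, MvPolynomial.eval (f z).rep G = 0) := fun G hG =>
    (hv G hG).trans (eval_iff hf hfr hG)
  have hI : ∀ z, InV (vI y) (f z) := fun z => inV_vI.2 fun G hG hyG => (hval G hG).1 hyG z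
  have hnc : ∃ z w, f z ≠ f w := by
    by_contra hcon
    push Not at hcon
    obtain ⟨k, hk⟩ := Function.ne_iff.1 (f 0).rep_nonzero
    refine not_const hy (f 0).rep k hk fun j => ?_
    have hG : IsForm (MvPolynomial.C ((f 0).rep k) * MvPolynomial.X j -
        MvPolynomial.C ((f 0).rep j) * MvPolynomial.X k : MvPolynomial (Fin (n + 1)) ℂ) := by
      refine ⟨1, ?_⟩
      have h1 : ∀ (c : ℂ) (j : Fin (n + 1)),
          (MvPolynomial.C c * MvPolynomial.X j : MvPolynomial (Fin (n + 1)) ℂ).IsHomogeneous 1 := by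
        intro c j
        have := (MvPolynomial.isHomogeneous_C (Fin (n + 1)) c).mul
          (MvPolynomial.isHomogeneous_X ℂ j)
        rwa [zero_add] at this
      exact (h1 _ _).sub (h1 _ _)
    have h2 := (hval _ hG).2 fun z => by
      rw [hcon z 0]
      simp only [map_sub, map_mul, MvPolynomial.eval_C, MvPolynomial.eval_X]
      ring
    unfold val at h2
    simp only [map_sub, map_mul, MvPolynomial.aeval_C, MvPolynomial.aeval_X] at h2
    exact sub_eq_zero.1 h2
  by_contra hcon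
  have hT : TorusMapsIn (vI y) (⊤ : Ideal (MvPolynomial (Fin (n + 1)) ℂ)) := by
    intro ω₁ ω₂ hind g hg hp1 hp2 hgI hgnc
    exfalso
    apply hcon
    refine ⟨g, ⟨holMap_conv hg, fun z => ⟨(g z).rep_nonzero, fun i => ?_⟩⟩, hgnc,
      ⟨⟨ω₁, ω₂, hind⟩, fun l hl z => ?_⟩, fun G hG hyG z => ?_⟩
    · rw [val_eval']
      exact inV_vI.1 (hgI z) (F i) (hF i) (hy.mem i)
    · obtain ⟨a, b, hab⟩ := PeriodPair.mem_lattice.1 hl
      rw [← hab]
      exact per_int hp1 hp2 a b z
    · rw [val_eval']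
      exact inV_vI.1 (hgI z) G hG hyG
  have h1 := Pool.Agent.TH143.EL.main hT hB hf hh (fun j => linB_of_mem hB (hhB j)) hfr hI hnc 0
  have h2 := h1 1 Submodule.mem_top ⟨0, MvPolynomial.isHomogeneous_one _ _⟩
  rw [map_one] at h2
  exact one_ne_zero h2

theorem nc_id : NC fun z : ℂ => z := by
  rintro ⟨c, hc⟩
  obtain ⟨z, h1, h2⟩ := ((codis_ev hc c).and self_mem_nhdsWithin).exists
  exact h2 h1

theorem aeval_smul_homog' {A : Type} [CommRing A] [Algebra ℂ A] (c : A) (v : Fin (n + 1) → A)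
    {G : MvPolynomial (Fin (n + 1)) ℂ} {d : ℕ} (hG : G.IsHomogeneous d) :
    MvPolynomial.aeval (fun i => c * v i) G = c ^ d * MvPolynomial.aeval v G :=
  Pool.Agent.TH143.HE.eval₂_smul_homog (algebraMap ℂ A) c v hG

/-- genus zero -/
theorem tor_zero (hF : ∀ i, IsForm (F i)) (hy : SubVar F K 1 y) {t : K}
    (ht : IntermediateField.adjoin ℂ {t} = ⊤) :
    ∃ g : ℂ → ℙ ℂ (Fin (n + 1) → ℂ), HolIn F g ∧ (∃ z w, g z ≠ g w) ∧
      Pool.Agent.N155.BB.DoublyPeriodic g ∧
      ∀ G : MvPolynomial (Fin (n + 1)) ℂ, IsForm G → val y G = 0 → ∀ z, val (g z).rep G = 0 := by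
  have htr : Transcendental ℂ t := by
    intro halg
    have h1 : Algebra.IsAlgebraic ℂ K := by
      have h2 := IntermediateField.isAlgebraic_adjoin_simple halg.isIntegral
      rw [ht] at h2
      exact ⟨fun z => by
        have h3 := h2.isAlgebraic (⟨z, IntermediateField.mem_top⟩ : (⊤ : IntermediateField ℂ K))
        exact (isAlgebraic_algHom_iff (IntermediateField.val ⊤) Subtype.val_injective).2 h3⟩
    have h2 := hy.dim
    rw [_root_.trdeg_eq_zero_iff.2 h1] at h2
    simp at h2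
  obtain ⟨p, D, hD, hp⟩ := Pool.Agent.TH143.GE.exists_den ht y
  refine torus hF hy (B := Algebra.adjoin ℂ {fun z : ℂ => z}) trOne_poly
    (h := fun j z => (p j).eval z) (fun j => ?_) ?_
  · have h1 : (fun z : ℂ => (p j).eval z) = Polynomial.aeval (fun z : ℂ => z) (p j) := by
      funext z
      have h2 := Polynomial.aeval_algHom_apply (Pi.evalAlgHom ℂ (fun _ : ℂ => ℂ) z)
        (fun z : ℂ => z) (p j)
      have h3 : Pi.evalAlgHom ℂ (fun _ : ℂ => ℂ) z (fun z : ℂ => z) = z := rfl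
      rw [h3] at h2
      have h4 : Pi.evalAlgHom ℂ (fun _ : ℂ => ℂ) z (Polynomial.aeval (fun z : ℂ => z) (p j)) =
        Polynomial.aeval (fun z : ℂ => z) (p j) z := rfl
      rw [h4] at h2
      rw [← h2]
      rfl
    rw [h1]
    exact Polynomial.aeval_mem_adjoin_singleton ℂ _
  intro G hG
  obtain ⟨d, hd⟩ := hG
  have h1 : Polynomial.aeval t (MvPolynomial.aeval p G : Polynomial ℂ) = D ^ d * val y G := by
    rw [MvPolynomial.comp_aeval_apply (f := p) (Polynomial.aeval t)]
    have h2 : (fun i => Polynomial.aeval t (p i)) = fun i => D * y i := funext hp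
    rw [h2, aeval_smul_homog' D y hd]
    rfl
  have h3 : val y G = 0 ↔ (MvPolynomial.aeval p G : Polynomial ℂ) = 0 := by
    constructor
    · intro h0
      rw [h0, mul_zero] at h1
      by_contra hne
      exact htr ⟨_, hne, h1⟩
    · intro h0
      rw [h0, map_zero] at h1
      exact (mul_eq_zero.1 h1.symm).resolve_left (pow_ne_zero _ hD)
  rw [h3]
  constructor
  · intro h0
    refine Eventually.of_forall fun z => ?_
    rw [← eval_comp_poly, h0, Polynomial.eval_zero]
  · intro h0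
    apply nc_poly (q := fun z => z) (fun z => MeromorphicAt.id z) nc_id
    filter_upwards [h0] with z hz
    rw [eval_comp_poly]
    exact hz

end

section

open Pool.Agent.Y719.LC (onC onC_eval onC_degree px py mero_px mero_py nc_px curve_codis PB
  trOne_PB px_mem py_mem)
open Pool.Agent.TH143.GE (weier normal)

variable {n : ℕ} {ι : Type} {F : ι → MvPolynomial (Fin (n + 1)) ℂ} {K : Type} [Field K]
  [Algebra ℂ K] {y : Fin (n + 1) → K}

theorem poly_mem {B : Subalgebra ℂ (ℂ → ℂ)} {q : ℂ → ℂ} (hq : q ∈ B) (P : Polynomial ℂ) :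
    (fun z => P.eval (q z)) ∈ B := by
  have h1 : (fun z : ℂ => P.eval (q z)) = Polynomial.aeval q P := by
    funext z
    have h2 := Polynomial.aeval_algHom_apply (Pi.evalAlgHom ℂ (fun _ : ℂ => ℂ) z) q P
    have h3 : Pi.evalAlgHom ℂ (fun _ : ℂ => ℂ) z q = q z := rfl
    rw [h3] at h2
    have h4 : Pi.evalAlgHom ℂ (fun _ : ℂ => ℂ) z (Polynomial.aeval q P) =
      Polynomial.aeval q P z := rfl
    rw [h4] at h2
    rw [← h2]
    rfl
  rw [h1]
  exact Algebra.adjoin_le (Set.singleton_subset_iff.2 hq)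
    (Polynomial.aeval_mem_adjoin_singleton ℂ _)

/-- genus one -/
theorem tor_one [IsFF ℂ K] (hF : ∀ i, IsForm (F i)) (hy : SubVar F K 1 y)
    (h0 : Pool.Agent.W603.LV.canDeg ℂ K = 0) :
    ∃ g : ℂ → ℙ ℂ (Fin (n + 1) → ℂ), HolIn F g ∧ (∃ z w, g z ≠ g w) ∧
      Pool.Agent.N155.BB.DoublyPeriodic g ∧
      ∀ G : MvPolynomial (Fin (n + 1)) ℂ, IsForm G → val y G = 0 → ∀ z, val (g z).rep G = 0 := by
  classical
  obtain ⟨X, Y, a, b, hX, hXY, hind, hgen, hns⟩ := weier (k := ℂ) (F := K) h0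
  have hrs : ∀ f : K, ∃ r s : MvPolynomial (Fin 2) ℂ, MvPolynomial.aeval ![X, Y] s ≠ 0 ∧
      f * MvPolynomial.aeval ![X, Y] s = MvPolynomial.aeval ![X, Y] r := by
    intro f
    obtain ⟨r, s, h⟩ := hgen f
    by_cases h0 : MvPolynomial.aeval ![X, Y] s = 0
    · refine ⟨0, 1, ?_, ?_⟩
      · rw [map_one]
        exact one_ne_zero
      · rw [h, h0, div_zero, zero_mul, map_zero]
    · exact ⟨r, s, h0, by rw [h, div_mul_cancel₀ _ h0]⟩
  choose r s hs hr using fun i => hrs (y i)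
  set D : K := ∏ i, MvPolynomial.aeval ![X, Y] (s i) with hD
  have hD0 : D ≠ 0 := Finset.prod_ne_zero_iff.2 fun i _ => hs i
  choose P Q hPQ using fun i => normal a b (r i * ∏ j ∈ Finset.univ.erase i, s j)
  have hw : ∀ i, Polynomial.aeval X (P i) + Polynomial.aeval X (Q i) * Y = D * y i := by
    intro i
    rw [← hPQ i K X Y hXY, map_mul, map_prod, ← hr, hD,
      ← Finset.mul_prod_erase _ _ (Finset.mem_univ i)]
    ring
  have hon : ∀ G : MvPolynomial (Fin (n + 1)) ℂ, IsForm G →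
      (val y G = 0 ↔ onC (RingHom.id ℂ) a b P Q G = 0) := by
    rintro G ⟨d, hd⟩
    have h1 := onC_eval (RingHom.id ℂ) P Q G (algebraMap ℂ K) hXY
    have h2 : (fun j => (P j).eval₂ (algebraMap ℂ K) X + (Q j).eval₂ (algebraMap ℂ K) X * Y) =
        fun j => D * y j := by
      funext j
      rw [← hw j]
      rfl
    rw [h2, Pool.Agent.TH143.HE.eval₂_smul_homog _ D y hd] at h1
    have h6 : val y G = MvPolynomial.eval₂ ((algebraMap ℂ K).comp (RingHom.id ℂ)) y G := rfl
    rw [h6]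
    constructor
    · intro h3
      rw [h3, mul_zero] at h1
      obtain ⟨α, β, h4⟩ := onC_degree (RingHom.id ℂ) a b P Q G
      rw [h4] at h1
      simp only [Polynomial.eval₂_add, Polynomial.eval₂_mul, Polynomial.eval₂_C,
        Polynomial.eval₂_X, Polynomial.coe_eval₂RingHom] at h1
      obtain ⟨h5, h6⟩ := hind α β h1
      rw [h4, h5, h6]
      simp
    · intro h3
      rw [h3, Polynomial.eval₂_zero] at h1
      exact (mul_eq_zero.1 h1.symm).resolve_left (pow_ne_zero _ hD0)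
  refine torus hF hy (B := PB a b) (trOne_PB a b)
    (h := fun j z => (P j).eval (px a b z) + (Q j).eval (px a b z) * py a b z)
    (fun j => (PB a b).add_mem (poly_mem (px_mem a b) (P j))
      ((PB a b).mul_mem (poly_mem (px_mem a b) (Q j)) (py_mem a b))) ?_
  intro G hG
  rw [hon G hG]
  have hev : ∀ z, py a b z ^ 2 = px a b z ^ 3 + a * px a b z + b →
      Polynomial.eval₂ (Polynomial.eval₂RingHom (RingHom.id ℂ) (px a b z)) (py a b z)
        (onC (RingHom.id ℂ) a b P Q G) =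
      MvPolynomial.eval (fun j => (P j).eval (px a b z) + (Q j).eval (px a b z) * py a b z) G := by
    intro z hz
    exact onC_eval (RingHom.id ℂ) P Q G (RingHom.id ℂ) hz
  constructor
  · intro h1
    filter_upwards [curve_codis a b] with z hz
    rw [← hev z hz, h1, Polynomial.eval₂_zero]
  · intro h1
    obtain ⟨α, β, h4⟩ := onC_degree (RingHom.id ℂ) a b P Q G
    rw [h4] at hev
    have h5 : ∀ᶠ z in codiscrete ℂ, α.eval (px a b z) + β.eval (px a b z) * py a b z = 0 := by
      filter_upwards [curve_codis a b, h1] with z hz hz1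
      have h6 := hev z hz
      rw [hz1] at h6
      simp only [Polynomial.eval₂_add, Polynomial.eval₂_mul, Polynomial.eval₂_C,
        Polynomial.eval₂_X, Polynomial.coe_eval₂RingHom] at h6
      exact h6
    have h7 : α ^ 2 - β ^ 2 * (Polynomial.X ^ 3 + Polynomial.C a * Polynomial.X +
        Polynomial.C b) = 0 := by
      apply nc_poly (mero_px a b) (nc_px a b)
      filter_upwards [curve_codis a b, h5] with z hz hz1
      simp only [Polynomial.eval_sub, Polynomial.eval_mul, Polynomial.eval_pow,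
        Polynomial.eval_add, Polynomial.eval_X, Polynomial.eval_C]
      rw [← hz]
      linear_combination (α.eval (px a b z) - β.eval (px a b z) * py a b z) * hz1
    have h8 := congrArg (Polynomial.aeval X) h7
    simp only [map_sub, map_mul, map_pow, map_add, Polynomial.aeval_X, Polynomial.aeval_C,
      map_zero] at h8
    rw [← hXY] at h8
    have h9 : (Polynomial.aeval X α + Polynomial.aeval X β * Y) *
        (Polynomial.aeval X α + Polynomial.aeval X (-β) * Y) = 0 := by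
      rw [map_neg]
      linear_combination h8
    have h10 : α = 0 ∧ β = 0 := by
      rcases mul_eq_zero.1 h9 with h11 | h11
      · exact hind α β h11
      · obtain ⟨h12, h13⟩ := hind α (-β) h11
        exact ⟨h12, neg_eq_zero.1 h13⟩
    rw [h4, h10.1, h10.2]
    simp

end

end Pool.Agent.H106.SS

namespace Pool.Agent.H918.SS

/-- an entire curve contained in a proper closed subset of a surface gives a torus curve with the
same Zariski closure -/
def S_PAR : Prop :=
  ∀ (n : ℕ) (ι : Type) (F : ι → MvPolynomial (Fin (n + 1)) ℂ) (K : Type) [Field K] [Algebra ℂ K]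
    (y : Fin (n + 1) → K), SmoothVariety F 2 y → ∀ H : MvPolynomial (Fin (n + 1)) ℂ, IsForm H →
    val y H ≠ 0 → ∀ f : ℂ → ℙ ℂ (Fin (n + 1) → ℂ), HolIn F f → (∃ z w, f z ≠ f w) →
    (∀ z, val (f z).rep H = 0) →
    ∃ g : ℂ → ℙ ℂ (Fin (n + 1) → ℂ), HolIn F g ∧ (∃ z w, g z ≠ g w) ∧
      Pool.Agent.N155.BB.DoublyPeriodic g ∧
      ∀ G : MvPolynomial (Fin (n + 1)) ℂ, IsForm G → (∀ z, val (f z).rep G = 0) →
        ∀ z, val (g z).rep G = 0

/-- the same curve is not of general type -/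
def S_PAR2 : Prop :=
  ∀ (n : ℕ) (ι : Type) (F : ι → MvPolynomial (Fin (n + 1)) ℂ) (K : Type) [Field K] [Algebra ℂ K]
    (y : Fin (n + 1) → K), SmoothVariety F 2 y → ∀ H : MvPolynomial (Fin (n + 1)) ℂ, IsForm H →
    val y H ≠ 0 → ∀ f : ℂ → ℙ ℂ (Fin (n + 1) → ℂ), HolIn F f → (∃ z w, f z ≠ f w) →
    (∀ z, val (f z).rep H = 0) →
    ∃ (K' : Type) (_ : Field K') (_ : Algebra ℂ K') (y' : Fin (n + 1) → K'),
      SubVar F K' 1 y' ∧ ¬ GeneralType ℂ K' 1 ∧
      ∀ G : MvPolynomial (Fin (n + 1)) ℂ, IsForm G → ((∀ z, val (f z).rep G = 0) ↔ val y' G = 0)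

theorem par : S_PAR := by
  intro n ι F K _ _ y hX H hH hyH f hf hnc hfH
  obtain ⟨L, _, _, hff, v, hv, hcan, hG⟩ := Pool.Agent.H106.SS.low hX hH hyH hf hnc hfH
  obtain ⟨g, hg1, hg2, hg3, hg4⟩ : ∃ g : ℂ → ℙ ℂ (Fin (n + 1) → ℂ), HolIn F g ∧
      (∃ z w, g z ≠ g w) ∧ Pool.Agent.N155.BB.DoublyPeriodic g ∧
      ∀ G : MvPolynomial (Fin (n + 1)) ℂ, IsForm G → val v G = 0 → ∀ z, val (g z).rep G = 0 := by
    rcases hcan.lt_or_eq with h0 | h0
    · obtain ⟨t, ht⟩ := Pool.Agent.TH143.GE.rational_of_neg h0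
      exact Pool.Agent.H106.SS.tor_zero hX.form hv ht
    · exact Pool.Agent.H106.SS.tor_one hX.form hv h0
  exact ⟨g, hg1, hg2, hg3, fun G hGf hfG => hg4 G hGf ((hG G hGf).1 hfG)⟩

theorem par2 : S_PAR2 := by
  intro n ι F K _ _ y hX H hH hyH f hf hnc hfH
  obtain ⟨L, _, _, hff, v, hv, hcan, hG⟩ := Pool.Agent.H106.SS.low hX hH hyH hf hnc hfH
  exact ⟨L, inferInstance, inferInstance, v, hv, Pool.Agent.H106.SS.not_gt hcan, hG⟩

end Pool.Agent.H918.SS
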